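import Pool.Agent.Lib.MP_c89be3_co.Cl.Dom
import Pool.Agent.Lib.MP_c89be3_co.Cl.Peel
import Pool.Agent.Lib.MP_c89be3_co.Cl.Par
import Pool.Agent.Lib.MP_c89be3_co.Cl.Stab
import Pool.Agent.Lib.MP_c89be3_co.Cl.Fin
import Pool.Agent.Lib.MP_c89be3_co.Cl.Neg
import Pool.Agent.Lib.MP_c89be3_co.Cl.BrA
import Pool.Agent.Lib.MP_c89be3_co.Cl.BrB
import Pool.Agent.Lib.MP_c89be3_co.Cl.Main

namespace Pool.Agent.Results.MP_c89be3_co.OrderClassification

open Pool.Agent.Spl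

/-- For large `n`, the orders `m` for which the statement of the problem holds. -/
theorem result : ∃ n₀ : ℕ, ∀ n : ℕ, n₀ ≤ n → ∀ m : ℕ, 2 * n ≤ m →
    ((∀ G : SimpleGraph (Fin m), G.edgeSet.ncard = (2 * n + 1).choose 2 - n.choose 2 - 1 →
      ∃ B D : SimpleGraph (Fin m), G.edgeSet = B.edgeSet ∪ D.edgeSet ∧ B.IsBipartite ∧
        ∀ v, (D.neighborSet v).ncard < n) ↔ m ≤ 2 * n + 2) :=
  main (stab_st dom_st peel_st par_st) (fin_st peel_st par_st) neg_st bra_st brb_st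

end Pool.Agent.Results.MP_c89be3_co.OrderClassification
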