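import Pool.Agent.Lib.MP_c89be3_co.Low
import Pool.Agent.Lib.MP_c89be3_co.Up

/-! The least size of a graph that is not the union of a bipartite (or of a triangle-free) graph
and a graph of maximum degree below `n`, to second order. -/

open Finset Pool.Agent.Lib.MP_c89be3_co

namespace Pool.Agent.Results.MP_c89be3_co.Threshold

theorem split_of {V : Type} [Fintype V] [DecidableEq V] (G : SimpleGraph V) [DecidableRel G.Adj]
    {n : ℕ} (A : Finset V) (h1 : ∀ v ∉ A, #(G.neighborFinset v \ A) < n)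
    (h2 : ∀ v, #(G.neighborFinset v ∩ A) < n) : ∃ B D : SimpleGraph V,
      G.edgeSet = B.edgeSet ∪ D.edgeSet ∧ B.IsBipartite ∧ ∀ v, (D.neighborSet v).ncard < n := by
  let D : SimpleGraph V := G ⊓ SimpleGraph.fromRel fun v w => (v ∈ A ↔ w ∈ A)
  have hD : ∀ v w, D.Adj v w ↔ G.Adj v w ∧ (v ∈ A ↔ w ∈ A) := fun v w => by
    simp only [D, SimpleGraph.inf_adj, SimpleGraph.fromRel_adj]
    exact ⟨fun k => ⟨k.1, k.2.2.elim id Iff.symm⟩, fun k => ⟨k.1, k.1.ne, Or.inl k.2⟩⟩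
  refine ⟨G \ D, D, ?_, ⟨SimpleGraph.Coloring.mk (fun v => if v ∈ A then 0 else 1) ?_⟩,
    fun v => ?_⟩
  · rw [← SimpleGraph.edgeSet_sup, sdiff_sup_cancel inf_le_left]
  · intro v w k
    rw [SimpleGraph.sdiff_adj, hD] at k
    by_cases a : v ∈ A <;> by_cases b : w ∈ A <;> simp_all
  · by_cases a : v ∈ A
    · refine lt_of_eq_of_lt ?_ (h2 v)
      rw [← Set.ncard_coe_finset]
      congr 1
      ext w
      simp [hD, a]
    · refine lt_of_eq_of_lt ?_ (h1 v a)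
      rw [← Set.ncard_coe_finset]
      congr 1
      ext w
      simp [hD, a]

theorem low {V : Type} [Finite V] (G : SimpleGraph V) {n : ℕ} (h : ¬ ∃ B D : SimpleGraph V,
      G.edgeSet = B.edgeSet ∪ D.edgeSet ∧ B.IsBipartite ∧ ∀ v, (D.neighborSet v).ncard < n)
    {x : ℝ} (hx : 1 ≤ x) (e : (n : ℝ) = x ^ 6) :
    x ^ 12 + √2 * x ^ 9 - 200 * x ^ 8 ≤ G.edgeSet.ncard := by
  classical
  rcases le_total 2 x with c | c
  · have := Fintype.ofFinite V
    have k := lower (fun v => G.neighborFinset v) (fun v w k => by simpa [G.adj_comm] using k)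
      (fun v => by simp) (fun A hA => by
        by_contra c
        exact h (split_of G A hA fun v => not_le.1 fun l => c ⟨v, l⟩)) c e
    have e1 : ∑ v, (#(G.neighborFinset v) : ℝ) = 2 * G.edgeSet.ncard := by
      rw [← SimpleGraph.coe_edgeFinset, Set.ncard_coe_finset]
      exact_mod_cast G.sum_degrees_eq_twice_card_edges
    linarith
  · refine le_trans ?_ (Nat.cast_nonneg _)
    have r2 : √2 ≤ (2 : ℝ) := Real.sqrt_le_iff.2 ⟨by norm_num, by norm_num⟩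
    have p8 : 0 ≤ x ^ 8 := by positivity
    have a1 : x ^ 4 ≤ 2 ^ 4 := pow_le_pow_left₀ (by linarith) c 4
    have a2 : √2 * x ≤ 2 * 2 := mul_le_mul r2 c (by linarith) (by norm_num)
    have := mul_le_mul_of_nonneg_right a1 p8
    have := mul_le_mul_of_nonneg_right a2 p8
    linarith

theorem result (P : ∀ V : Type, SimpleGraph V → Prop)
    (bip : ∀ (V : Type) (B : SimpleGraph V), B.IsBipartite → P V B)
    (tri : ∀ (V : Type) (B : SimpleGraph V), P V B → B.CliqueFree 3)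
    (n : ℕ) (hn : 1 ≤ n) : ∃ f : ℕ,
    IsLeast {e : ℕ | ∃ (V : Type) (_ : Finite V) (G : SimpleGraph V), G.edgeSet.ncard = e ∧
      ¬ ∃ B D : SimpleGraph V, G.edgeSet = B.edgeSet ∪ D.edgeSet ∧ P V B ∧
        ∀ v, (D.neighborSet v).ncard < n} f ∧
    |(f : ℝ) - ((n : ℝ) ^ 2 + √2 * (n : ℝ) ^ (3 / 2 : ℝ))| ≤ 200 * (n : ℝ) ^ (4 / 3 : ℝ) := by
  classical
  have n1 : (1 : ℝ) ≤ n := by exact_mod_cast hn
  obtain ⟨x, hx, e⟩ : ∃ x : ℝ, 1 ≤ x ∧ (n : ℝ) = x ^ 6 :=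
    ⟨(n : ℝ) ^ ((6 : ℕ) : ℝ)⁻¹, Real.one_le_rpow n1 (by positivity),
      (Real.rpow_inv_natCast_pow (by linarith) (by norm_num)).symm⟩
  have x0 : 0 ≤ x := by linarith
  have e2 : (n : ℝ) ^ 2 = x ^ 12 := by rw [e]; ring
  have e3 : (n : ℝ) ^ (3 / 2 : ℝ) = x ^ 9 := by
    rw [e, ← Real.rpow_natCast, ← Real.rpow_mul x0, ← Real.rpow_natCast]
    norm_num
  have e4 : (n : ℝ) ^ (4 / 3 : ℝ) = x ^ 8 := by
    rw [e, ← Real.rpow_natCast, ← Real.rpow_mul x0, ← Real.rpow_natCast]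
    norm_num
  obtain ⟨b, hb, up⟩ := up_bound hx e
  let G : SimpleGraph (Option (Fin n ⊕ Fin b × Fin (n + n / b))) :=
    SimpleGraph.fromEdgeSet (upE n b hb)
  have hG : G.edgeSet.ncard ∈ {e : ℕ | ∃ (V : Type) (_ : Finite V) (G : SimpleGraph V),
      G.edgeSet.ncard = e ∧ ¬ ∃ B D : SimpleGraph V, G.edgeSet = B.edgeSet ∪ D.edgeSet ∧
        P V B ∧ ∀ v, (D.neighborSet v).ncard < n} := by
    refine ⟨_, inferInstance, G, rfl, ?_⟩
    rintro ⟨B, D, h1, c, h2⟩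
    obtain ⟨v, k⟩ := upE_arrow n b hb B D h1 (tri _ B c)
    exact (h2 v).not_ge k
  have g1 : G.edgeSet.ncard ≤ #(upE n b hb) := by
    rw [← Set.ncard_coe_finset, SimpleGraph.edgeSet_fromEdgeSet]
    exact Set.ncard_le_ncard Set.sdiff_subset (Set.toFinite _)
  refine ⟨_, isLeast_csInf ⟨_, hG⟩, ?_⟩
  obtain ⟨V, _, H, h1, h2⟩ := csInf_mem ⟨_, hG⟩
  have l1 := low H (fun ⟨B, D, a, c, d⟩ => h2 ⟨B, D, a, bip _ B c, d⟩) hx e
  have l2 : ((H.edgeSet.ncard : ℕ) : ℝ) ≤ #(upE n b hb) :=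
    Nat.cast_le.2 ((h1.trans_le (csInf_le' hG)).trans g1)
  have p8 : 0 ≤ x ^ 8 := by positivity
  rw [← h1, e2, e3, e4, abs_le]
  constructor <;> linarith

end Pool.Agent.Results.MP_c89be3_co.Threshold
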